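import Pool.Agent.W295.PR.Stm

set_option autoImplicit false
set_option linter.unusedVariables false

open Topology Pointwise Pool.Agent.W295.PR

namespace Pool.Agent.W191.PR.TRA1

theorem main : S_TRA1 := by
  intro G _ _ _ _ Γ hc g hg x
  have hn : (Subgroup.connectedComponentOfOne G).Normal := by
    constructor
    intro n hn c
    have h1 : Continuous fun y : G => c * y * c⁻¹ := by fun_prop
    have h2 := h1.image_connectedComponent_subset (1 : G)
    have h3 : c * n * c⁻¹ ∈ connectedComponent (c * 1 * c⁻¹) := h2 ⟨n, hn, rfl⟩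
    rw [mul_one, mul_inv_cancel] at h3
    exact h3
  have ho : IsOpen ((Subgroup.connectedComponentOfOne G : Subgroup G) : Set G) :=
    isOpen_connectedComponent
  set H : Subgroup G := Subgroup.connectedComponentOfOne G ⊔ Γ with hH
  have hHo : IsOpen (H : Set G) := Subgroup.isOpen_mono le_sup_left ho
  have hHc : IsClosed (H : Set G) := Subgroup.isClosed_of_isOpen H hHo
  have hΓ : Γ ≤ H := le_sup_right
  have hd : DiscreteTopology (G ⧸ H) := QuotientGroup.discreteTopology hHo
  have hcm : Continuous (Subgroup.quotientMapOfLE hΓ) := by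
    apply continuous_quot_lift
    exact QuotientGroup.continuous_mk
  have hsj : Function.Surjective (Subgroup.quotientMapOfLE hΓ) := by
    intro y
    obtain ⟨y, rfl⟩ := QuotientGroup.mk_surjective y
    exact ⟨(y : G ⧸ Γ), rfl⟩
  have hcH : CompactSpace (G ⧸ H) := hsj.compactSpace hcm
  have hfin : Finite (G ⧸ H) := finite_of_compact_of_discrete
  have hidx : H.index ≠ 0 := (Subgroup.finiteIndex_of_finite_quotient (H := H)).index_ne_zero
  obtain ⟨m, hm0, -, hm⟩ := Subgroup.exists_pow_mem_of_index_ne_zero hidx g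
  have hD := hg m hm0 ((1 : G) : G ⧸ Γ)
  have hO : IsClosed (QuotientGroup.mk '' (H : Set G) : Set (G ⧸ Γ)) := by
    rw [← (QuotientGroup.isQuotientMap_mk (N := Γ)).isClosed_preimage]
    convert hHc using 1
    ext y
    constructor
    · rintro ⟨z, hz, hzy⟩
      have h1 : z⁻¹ * y ∈ Γ := QuotientGroup.eq.1 hzy
      have h2 := H.mul_mem hz (hΓ h1)
      rwa [mul_inv_cancel_left] at h2
    · intro hy
      exact ⟨y, hy, rfl⟩
  have hsub : Set.range (fun n : ℤ => (g ^ m) ^ n • ((1 : G) : G ⧸ Γ)) ⊆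
      (QuotientGroup.mk '' (H : Set G) : Set (G ⧸ Γ)) := by
    rintro _ ⟨n, rfl⟩
    refine ⟨(g ^ m) ^ n, H.zpow_mem hm n, ?_⟩
    change _ = (((g ^ m) ^ n * 1 : G) : G ⧸ Γ)
    rw [mul_one]
  have huniv : (QuotientGroup.mk '' (H : Set G) : Set (G ⧸ Γ)) = Set.univ :=
    hO.closure_eq ▸ (hD.mono hsub).closure_eq
  have hx : (x : G ⧸ Γ) ∈ (QuotientGroup.mk '' (H : Set G) : Set (G ⧸ Γ)) := by
    rw [huniv]; trivial
  obtain ⟨z, hz, hzx⟩ := hx
  have h1 : z⁻¹ * x ∈ Γ := QuotientGroup.eq.1 hzx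
  have h2 : x ∈ H := by
    have := H.mul_mem hz (hΓ h1)
    rwa [mul_inv_cancel_left] at this
  have h3 : x ∈ ((Subgroup.connectedComponentOfOne G : Subgroup G) : Set G) * (Γ : Set G) := by
    rw [← Subgroup.normal_mul]
    exact h2
  obtain ⟨u, hu, γ, hγ, rfl⟩ := h3
  exact ⟨u, hu, γ, hγ, rfl⟩

end Pool.Agent.W191.PR.TRA1
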